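import Pool.Agent.Lib.MP_4662c0_co.LSound

set_option autoImplicit false

namespace Pool.Agent.Lib.MP_4662c0_co.Low.L

/-- The scaled threshold. -/
def thr : ℕ := nat_lit 2401286715252646304808960

end Pool.Agent.Lib.MP_4662c0_co.Low.L
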