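import Pool.Agent.Lib.MP_4662c0_co.L.C0
import Pool.Agent.Lib.MP_4662c0_co.L.C1
import Pool.Agent.Lib.MP_4662c0_co.L.C2
import Pool.Agent.Lib.MP_4662c0_co.L.C3
import Pool.Agent.Lib.MP_4662c0_co.L.C4
import Pool.Agent.Lib.MP_4662c0_co.L.C5
import Pool.Agent.Lib.MP_4662c0_co.L.C6
import Pool.Agent.Lib.MP_4662c0_co.L.C7
import Pool.Agent.Lib.MP_4662c0_co.L.C8
import Pool.Agent.Lib.MP_4662c0_co.L.C9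
import Pool.Agent.Lib.MP_4662c0_co.L.C10
import Pool.Agent.Lib.MP_4662c0_co.L.C11
import Pool.Agent.Lib.MP_4662c0_co.L.C12
import Pool.Agent.Lib.MP_4662c0_co.L.C13
import Pool.Agent.Lib.MP_4662c0_co.L.C14
import Pool.Agent.Lib.MP_4662c0_co.L.C15
import Pool.Agent.Lib.MP_4662c0_co.L.C16
import Pool.Agent.Lib.MP_4662c0_co.L.C17
import Pool.Agent.Lib.MP_4662c0_co.L.C18
import Pool.Agent.Lib.MP_4662c0_co.L.C19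

set_option autoImplicit false
set_option maxRecDepth 100000

namespace Pool.Agent.Lib.MP_4662c0_co.Low.L

theorem top0 : Cov 29 71 thr ⟨3355443200, 6710886400, 3355443200, 6710886400, 0, 23756800, 11848146, 11848146⟩ ⟨0, 6710886400, 0, 6710886400, 0, 23756800, 11848146, 11848146⟩ ⟨0, 6710886400, 0, 6710886400, 0, 23756800, 11848146, 11848146⟩ :=
 (Cov.p1 (Cov.p0 (Cov.p0 (Cov.p1 (Cov.q0 t0 t1) t2) t3) t4) t5)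

theorem top1 : Cov 71 29 thr ⟨3355443200, 6710886400, 3355443200, 6710886400, 0, 23756800, 11848146, 11848146⟩ ⟨0, 6710886400, 0, 6710886400, 0, 23756800, 11848146, 11848146⟩ ⟨0, 6710886400, 0, 6710886400, 0, 23756800, 11848146, 11848146⟩ :=
 (Cov.p1 (Cov.p0 (Cov.p0 (Cov.p1 (Cov.q0 (Cov.q1 (Cov.q0 t6 (Cov.q1 t7 (Cov.q0 t8 (Cov.q1 t9 (Cov.q2 (Cov.q2 t10 (Cov.q1 t11 (Cov.q0 t12 (Cov.p0 (Cov.p1 (Cov.q1 t13 (Cov.r0 (Cov.r1 (Cov.r0 t14 (Cov.r1 t15 (Cov.r0 t16 (Cov.r1 t17 (Cov.r2 t18 t19))))) (Cov.r1 (Cov.r0 t20 (Cov.r0 t21 (Cov.r1 (Cov.r2 t22 t23) t24))) t25)) (Cov.r1 (Cov.r1 t26 (Cov.r0 (Cov.r0 (Cov.r2 t27 t28) t29) t30)) (Cov.r1 (Cov.r0 (Cov.r1 (Cov.r2 t31 t32) t33) t34) t35)))) t36) (Cov.p1 (Cov.r0 t37 t38) t39))))) (Cov.q1 t40 (Cov.q0 t41 (Cov.p1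 (Cov.q2 (Cov.p0 (Cov.r0 (Cov.r1 (Cov.r0 t42 (Cov.r1 t43 (Cov.r0 t44 (Cov.r1 t45 (Cov.r2 (Cov.r1 t46 (Cov.r2 (Cov.r0 t47 (Cov.q1 t48 (Cov.q0 t49 (Cov.q2 (Cov.r1 t50 t51) t52)))) t53)) (Cov.r1 t54 t55)))))) (Cov.r0 t56 (Cov.r1 (Cov.r1 (Cov.r0 t57 (Cov.r2 (Cov.r1 (Cov.r0 t58 (Cov.r2 (Cov.q1 t59 (Cov.r1 (Cov.p1 (Cov.r1 t60 t61) t62) t63)) t64)) t65) (Cov.r1 (Cov.r0 t66 t67) t68))) t69) t70))) (Cov.r1 (Cov.r1 t71 (Cov.r0 (Cov.r0 (Cov.r1 t72 (Cov.r2 (Cov.r1 t73 (Cov.r0 (Cov.r2 (Cov.q1 t74 (Cov.p1 (Cov.q2 (Cov.r1 t75 (Cov.r2 t76 t77)) t78) t79)) t80) t81)) (Cov.r1 t82 (Cov.r2 t83 t84)))) t85) t86)) (Cov.r1 (Cov.r0 (Cov.r1 (Cov.r0 (Cov.r2 (Cov.r2 (Cov.r1 (Cov.r0 (Cov.q1 t87 (Cov.q0 t88 (Cov.r1 (Cov.r1 (Cov.q1 t89 t90) t91) t92))) t93) t94) t95) t96)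 t97) t98) t99) t100))) (Cov.r0 t101 t102)) t103) (Cov.q2 (Cov.p0 (Cov.r0 t104 t105) t106) t107))))))))) (Cov.q0 t108 (Cov.q0 t109 (Cov.q1 (Cov.q1 (Cov.q2 (Cov.p0 (Cov.q0 t110 (Cov.q1 (Cov.p1 (Cov.q2 t111 (Cov.r0 (Cov.r1 (Cov.r0 t112 (Cov.r1 t113 (Cov.r1 t114 (Cov.r0 t115 (Cov.r2 t116 t117))))) (Cov.r0 t118 (Cov.r1 (Cov.r0 t119 (Cov.r1 (Cov.r2 t120 t121) t122)) t123))) (Cov.r1 (Cov.r0 (Cov.r1 t124 (Cov.r1 t125 (Cov.r0 (Cov.r2 t126 t127) t128))) t129) (Cov.r1 (Cov.r0 (Cov.r0 (Cov.r2 t130 t131) t132) t133) t134)))) (Cov.q2 t135 (Cov.q0 t136 (Cov.p0 (Cov.q2 t137 (Cov.p1 (Cov.q1 (Cov.q2 t138 t139) t140) t141)) (Cov.r0 t142 t143))))) t144)) (Cov.q0 t145 (Cov.p1 (Cov.q1 (Cov.q2 t146 (Cov.r0 t147 t148)) t149) t150))) (Cov.p0 (Cov.q0 t151 (Cov.p1 (Cov.q1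 (Cov.q2 (Cov.q2 (Cov.q1 (Cov.r0 (Cov.r1 (Cov.r0 t152 (Cov.r1 t153 (Cov.r1 t154 (Cov.r0 t155 (Cov.r2 (Cov.r2 (Cov.r1 t156 (Cov.r0 t157 (Cov.q0 t158 (Cov.r1 t159 (Cov.p1 t160 t161))))) t162) (Cov.r1 t163 (Cov.r0 t164 t165))))))) (Cov.r0 t166 (Cov.r1 (Cov.r1 (Cov.r0 t167 (Cov.r2 (Cov.r1 (Cov.r0 t168 (Cov.r2 (Cov.q0 t169 (Cov.r1 (Cov.p1 t170 t171) t172)) t173)) t174) (Cov.r2 t175 t176))) t177) t178))) (Cov.r1 (Cov.r1 t179 (Cov.r0 (Cov.r1 t180 (Cov.r0 (Cov.r2 (Cov.r1 t181 (Cov.r0 (Cov.r2 (Cov.r1 t182 (Cov.p1 t183 t184)) t185) t186)) (Cov.r1 t187 t188)) t189)) t190)) (Cov.r1 (Cov.r0 (Cov.r2 (Cov.r1 (Cov.r1 (Cov.r2 (Cov.r0 (Cov.r0 (Cov.r1 (Cov.p1 t191 t192) t193) t194) t195) t196) t197) t198) t199) t200) t201))) (Cov.r0 t202 t203)) (Cov.r0 (Cov.r1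 t204 t205) (Cov.r1 t206 t207))) t208) t209) (Cov.q2 (Cov.q1 (Cov.q2 (Cov.p1 (Cov.r0 (Cov.r1 t210 t211) (Cov.r1 t212 t213)) t214) t215) t216) t217))) (Cov.q0 t218 (Cov.q1 (Cov.q2 (Cov.p1 (Cov.r0 t219 t220) t221) t222) t223)))) t224) t225)))) (Cov.q1 (Cov.q0 (Cov.q2 (Cov.q0 (Cov.q1 t226 (Cov.q1 t227 (Cov.q1 t228 (Cov.p1 (Cov.q2 t229 (Cov.q0 (Cov.p0 (Cov.r0 (Cov.r1 (Cov.r0 t230 (Cov.r1 t231 (Cov.r0 t232 (Cov.r1 t233 (Cov.r2 t234 t235))))) (Cov.r1 (Cov.r0 t236 (Cov.r1 (Cov.r0 t237 (Cov.r2 t238 t239)) t240)) t241)) (Cov.r1 (Cov.r1 t242 (Cov.r0 (Cov.r0 (Cov.r1 t243 (Cov.r2 t244 t245)) t246) t247)) (Cov.r1 (Cov.r0 (Cov.r1 (Cov.r0 (Cov.r2 t248 t249) t250) t251) t252) t253))) (Cov.r0 t254 (Cov.r1 t255 t256))) t257)) t258)))) t259) (Cov.q1 t260 (Cov.q1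 t261 (Cov.q0 (Cov.p1 (Cov.p0 (Cov.q1 t262 (Cov.q2 (Cov.q0 (Cov.q1 (Cov.q2 t263 (Cov.q1 t264 (Cov.p1 (Cov.r0 (Cov.r1 (Cov.r0 t265 (Cov.r1 t266 (Cov.r1 t267 (Cov.r2 t268 (Cov.r0 t269 (Cov.r1 t270 (Cov.r0 t271 (Cov.r2 t272 t273)))))))) t274) t275) (Cov.r0 t276 t277)))) (Cov.r0 (Cov.r1 (Cov.r0 t278 (Cov.r1 t279 (Cov.r1 t280 (Cov.r0 t281 (Cov.r2 (Cov.r1 t282 (Cov.r0 t283 (Cov.r2 (Cov.q2 (Cov.p1 (Cov.r1 t284 (Cov.r2 (Cov.q0 (Cov.q1 t285 (Cov.q2 t286 (Cov.q2 t287 t288))) t289) t290)) t291) t292) t293))) (Cov.r1 t294 (Cov.r0 t295 (Cov.r2 (Cov.r1 t296 (Cov.r2 t297 (Cov.p1 t298 (Cov.q2 t299 (Cov.q0 (Cov.p0 t300 (Cov.r0 t301 (Cov.p0 t302 t303))) t304))))) (Cov.q2 t305 t306))))))))) (Cov.r1 (Cov.r0 t307 (Cov.r1 (Cov.r0 t308 (Cov.r2 (Cov.r1 (Cov.r0 t309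 (Cov.r2 (Cov.q2 (Cov.p1 (Cov.r1 (Cov.r2 (Cov.q1 t310 (Cov.q2 t311 (Cov.q0 (Cov.r0 t312 (Cov.q2 t313 t314)) t315))) t316) t317) t318) t319) t320)) t321) (Cov.r1 (Cov.r0 t322 (Cov.r2 t323 (Cov.p1 t324 t325))) t326))) t327)) t328)) (Cov.r1 (Cov.r1 t329 (Cov.r0 (Cov.r0 (Cov.r1 t330 (Cov.r2 (Cov.r1 t331 (Cov.r2 (Cov.r0 (Cov.q2 (Cov.r1 t332 (Cov.p1 (Cov.q0 (Cov.q1 t333 (Cov.q2 t334 (Cov.r2 (Cov.r0 (Cov.q2 t335 t336) t337) t338))) t339) t340)) t341) t342) t343)) (Cov.r1 t344 (Cov.r0 (Cov.r2 t345 (Cov.q2 t346 t347)) t348)))) t349) t350)) (Cov.r1 (Cov.r0 (Cov.r1 (Cov.r2 (Cov.r0 (Cov.r1 (Cov.r0 (Cov.r2 (Cov.q2 (Cov.p1 (Cov.r1 (Cov.q0 (Cov.q1 t351 (Cov.r2 (Cov.q2 t352 (Cov.r0 (Cov.q2 t353 t354) t355)) t356)) t357) t358) t359) t360) t361) t362) t363) t364)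 (Cov.r1 (Cov.r0 (Cov.r0 (Cov.r2 t365 t366) t367) t368) t369)) t370) t371) t372)))) t373) (Cov.q0 (Cov.q2 (Cov.p0 (Cov.q0 t374 t375) (Cov.r0 (Cov.r1 (Cov.r0 t376 (Cov.r1 t377 (Cov.r2 t378 (Cov.r1 t379 (Cov.r0 t380 (Cov.r1 t381 (Cov.r0 t382 (Cov.r2 (Cov.r1 t383 (Cov.r2 t384 (Cov.q2 (Cov.p1 t385 (Cov.p0 t386 (Cov.r0 t387 (Cov.p1 (Cov.r2 t388 (Cov.q0 (Cov.q1 t389 (Cov.q0 t390 (Cov.q2 t391 t392))) (Cov.q0 (Cov.q1 (Cov.q1 t393 (Cov.q1 t394 (Cov.p0 t395 (Cov.r2 t396 (Cov.q1 t397 (Cov.q0 (Cov.q2 t398 t399) t400)))))) (Cov.q1 (Cov.r2 t401 (Cov.q2 t402 (Cov.q2 (Cov.q1 (Cov.q0 (Cov.r1 t403 (Cov.p1 t404 t405)) t406) t407) (Cov.r1 t408 (Cov.r0 (Cov.q0 (Cov.q1 (Cov.r1 (Cov.r0 t409 (Cov.p1 t410 (Cov.q2 (Cov.r0 t411 (Cov.r2 t412 (Cov.q2 t413 (Cov.p0 (Cov.p0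 t414 (Cov.q1 (Cov.q2 t415 (Cov.q1 t416 t417)) t418)) t419)))) t420))) t421) t422) t423) t424))))) t425)) t426))) (Cov.q1 t427 (Cov.q0 (Cov.q0 t428 (Cov.q1 (Cov.r1 t429 (Cov.r2 t430 (Cov.r2 t431 (Cov.p1 (Cov.q2 t432 t433) t434)))) t435)) (Cov.q0 (Cov.q0 (Cov.r1 t436 (Cov.r2 t437 (Cov.q1 (Cov.p1 (Cov.r2 t438 (Cov.q0 (Cov.q1 (Cov.q2 t439 (Cov.p1 (Cov.r0 (Cov.r0 t440 (Cov.r1 (Cov.r0 t441 (Cov.q2 t442 (Cov.q2 (Cov.p1 (Cov.r2 t443 (Cov.q1 (Cov.p0 (Cov.q1 t444 (Cov.p0 t445 (Cov.q2 t446 t447))) t448) t449)) t450) t451))) t452)) t453) t454)) t455) t456)) t457) t458))) t459) t460))))))) t461))) (Cov.q2 (Cov.p1 (Cov.p1 t462 (Cov.q1 (Cov.p0 t463 (Cov.r1 t464 (Cov.r0 t465 (Cov.r2 (Cov.q1 t466 (Cov.q0 t467 (Cov.q0 (Cov.q1 t468 (Cov.p0 t469 (Cov.p1 t470 (Cov.r1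 t471 t472)))) t473))) t474)))) (Cov.q1 (Cov.q0 t475 (Cov.r1 t476 (Cov.r0 t477 (Cov.q0 (Cov.r2 (Cov.p0 t478 (Cov.p1 t479 t480)) t481) t482)))) t483))) (Cov.p0 t484 (Cov.r1 t485 (Cov.q0 (Cov.r0 t486 (Cov.r2 (Cov.q1 t487 (Cov.r2 (Cov.q0 t488 (Cov.p0 (Cov.q0 t489 (Cov.p0 t490 t491)) t492)) t493)) t494)) (Cov.q1 (Cov.q1 t495 (Cov.r0 t496 (Cov.r2 (Cov.q0 (Cov.p1 (Cov.q1 t497 (Cov.q1 (Cov.p0 t498 (Cov.r1 (Cov.r2 (Cov.p1 (Cov.p0 t499 t500) t501) t502) t503)) (Cov.p0 (Cov.r2 (Cov.p0 t504 (Cov.q2 t505 (Cov.r0 (Cov.r1 t506 (Cov.r1 (Cov.q0 (Cov.p0 t507 (Cov.q1 t508 (Cov.p1 t509 (Cov.r2 (Cov.r0 t510 (Cov.p1 (Cov.q2 t511 (Cov.p0 t512 (Cov.q1 t513 t514))) t515)) t516)))) t517) t518)) t519))) t520) (Cov.q0 (Cov.r0 (Cov.r2 (Cov.p0 (Cov.q2 t521 (Cov.r1 t522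 (Cov.r1 (Cov.p0 (Cov.q1 (Cov.p1 t523 t524) (Cov.p1 t525 (Cov.r2 (Cov.r0 t526 (Cov.p1 t527 t528)) t529))) (Cov.q1 t530 t531)) t532))) (Cov.q2 t533 (Cov.q2 t534 t535))) t536) t537) t538)))) t539) t540) t541))) (Cov.r0 t542 (Cov.r2 (Cov.q0 (Cov.q1 (Cov.q0 (Cov.p0 (Cov.r2 (Cov.p0 t543 (Cov.q2 t544 (Cov.p1 (Cov.p1 t545 (Cov.r1 t546 (Cov.r0 (Cov.q1 (Cov.r1 (Cov.p0 (Cov.r0 t547 (Cov.r2 (Cov.q0 (Cov.p0 t548 t549) t550) t551)) (Cov.r0 t552 (Cov.r2 (Cov.q2 t553 (Cov.q2 (Cov.q2 t554 t555) t556)) t557))) t558) t559) t560))) t561))) t562) (Cov.r2 (Cov.q2 t563 (Cov.q2 (Cov.r2 t564 t565) (Cov.p1 (Cov.r0 (Cov.r1 t566 (Cov.q1 (Cov.q2 (Cov.p1 t567 (Cov.r1 (Cov.r2 (Cov.q1 (Cov.q2 t568 (Cov.p0 (Cov.r0 t569 (Cov.p0 (Cov.q1 (Cov.q2 (Cov.q1 t570 t571) t572) t573)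 t574)) t575)) t576) t577) t578)) t579) t580)) t581) t582))) t583)) t584) t585) t586) t587))))))) t588))))))))) (Cov.r0 t589 (Cov.r1 (Cov.r0 t590 (Cov.r1 (Cov.r2 t591 t592) t593)) t594))) (Cov.r1 (Cov.r2 t595 (Cov.r1 t596 (Cov.r0 (Cov.r1 t597 (Cov.r1 t598 (Cov.r0 (Cov.r2 t599 t600) t601))) t602))) t603))) t604) t605))) (Cov.q0 (Cov.q1 t606 (Cov.q2 (Cov.p0 (Cov.q1 (Cov.q2 t607 (Cov.q1 t608 (Cov.r0 (Cov.r1 (Cov.r0 t609 (Cov.r1 t610 (Cov.r0 t611 (Cov.r1 t612 (Cov.r2 t613 (Cov.r1 t614 (Cov.r0 t615 (Cov.r2 (Cov.r1 t616 (Cov.r0 t617 t618)) t619)))))))) t620) t621))) (Cov.r0 (Cov.r1 (Cov.r0 t622 (Cov.r1 t623 (Cov.r1 t624 (Cov.r0 t625 (Cov.r2 t626 (Cov.r1 t627 (Cov.r0 t628 (Cov.r2 (Cov.r1 t629 (Cov.r0 t630 (Cov.r2 t631 t632))) t633)))))))) (Cov.r0 t634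 (Cov.r1 (Cov.r1 (Cov.r0 t635 (Cov.r2 (Cov.r1 (Cov.r0 t636 (Cov.r2 (Cov.q2 (Cov.p1 t637 t638) t639) t640)) t641) t642)) t643) t644))) (Cov.r1 (Cov.r1 t645 (Cov.r0 (Cov.r1 t646 (Cov.r2 t647 t648)) t649)) (Cov.r1 (Cov.r2 (Cov.r0 (Cov.r1 (Cov.r1 (Cov.r0 (Cov.r0 (Cov.r2 (Cov.q2 (Cov.q2 t650 t651) t652) t653) t654) t655) t656) t657) t658) t659) t660)))) (Cov.p0 (Cov.q1 t661 (Cov.q2 t662 t663)) t664)) (Cov.p0 (Cov.q2 (Cov.q2 (Cov.r0 (Cov.r1 (Cov.r0 t665 (Cov.r1 t666 (Cov.r1 t667 (Cov.r0 t668 (Cov.r2 t669 (Cov.r0 t670 (Cov.r1 t671 (Cov.r2 (Cov.r1 t672 (Cov.r0 t673 (Cov.p1 t674 (Cov.r2 t675 (Cov.p1 (Cov.p0 (Cov.r2 t676 (Cov.q0 t677 t678)) t679) t680))))) (Cov.q0 t681 (Cov.p0 (Cov.q1 (Cov.r0 t682 (Cov.r1 t683 (Cov.r2 (Cov.q0 (Cov.q1 t684 (Cov.p1 (Cov.p1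 t685 (Cov.q2 t686 t687)) (Cov.p1 (Cov.q1 t688 (Cov.q2 t689 (Cov.q2 (Cov.r1 t690 t691) t692))) t693))) t694) t695))) (Cov.r1 t696 (Cov.r0 t697 (Cov.r2 (Cov.q1 (Cov.q0 (Cov.r2 (Cov.q2 t698 (Cov.p1 t699 t700)) t701) t702) t703) t704)))) t705)))))))))) t706) (Cov.r1 (Cov.r2 t707 t708) t709)) (Cov.p0 (Cov.q0 t710 (Cov.q2 (Cov.q1 t711 t712) t713)) t714)) t715) t716))) t717)) (Cov.q1 t718 (Cov.p0 (Cov.q2 (Cov.q0 (Cov.q1 t719 (Cov.p1 (Cov.q2 t720 (Cov.q1 t721 (Cov.r0 t722 t723))) t724)) t725) (Cov.q0 (Cov.q1 t726 (Cov.p1 (Cov.q2 (Cov.r0 t727 t728) t729) t730)) t731)) (Cov.q0 (Cov.q2 (Cov.p0 (Cov.q1 t732 (Cov.p1 (Cov.q2 t733 t734) t735)) t736) t737) t738)))) t739)))) t740) (Cov.q0 (Cov.q2 (Cov.q1 (Cov.p1 (Cov.p0 (Cov.q0 (Cov.q1 (Cov.q0 (Cov.q2 t741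 (Cov.q1 (Cov.r0 (Cov.r1 (Cov.r0 t742 (Cov.r1 t743 (Cov.r1 t744 (Cov.r0 t745 (Cov.r2 (Cov.r1 t746 (Cov.r0 t747 (Cov.r2 (Cov.r1 t748 t749) t750))) (Cov.r1 t751 (Cov.r0 t752 (Cov.r2 t753 (Cov.r2 t754 t755))))))))) (Cov.r0 t756 (Cov.r1 (Cov.r2 (Cov.r1 (Cov.r0 t757 (Cov.r1 (Cov.r0 t758 (Cov.r2 (Cov.p1 t759 t760) t761)) t762)) t763) (Cov.r1 (Cov.r1 (Cov.r0 t764 (Cov.r2 t765 (Cov.r0 t766 (Cov.r1 t767 t768)))) t769) t770)) t771))) (Cov.r1 (Cov.r1 t772 (Cov.r0 (Cov.r0 (Cov.r1 t773 (Cov.r2 (Cov.r1 t774 (Cov.r0 (Cov.r2 t775 t776) t777)) (Cov.r1 t778 (Cov.r0 (Cov.r2 t779 (Cov.r1 t780 t781)) t782)))) t783) t784)) (Cov.r1 (Cov.r0 (Cov.r1 (Cov.r0 (Cov.r2 (Cov.r1 (Cov.r2 t785 t786) t787) (Cov.r1 (Cov.r2 t788 t789) t790)) t791) t792) t793) t794))) t795)) t796)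 t797) t798) (Cov.q1 (Cov.q1 (Cov.q0 (Cov.q2 t799 (Cov.q0 (Cov.p0 (Cov.r0 (Cov.r1 (Cov.r1 t800 (Cov.r0 t801 (Cov.r1 t802 (Cov.r0 t803 t804)))) (Cov.r0 t805 (Cov.r1 (Cov.r1 (Cov.r2 (Cov.r0 t806 (Cov.r1 (Cov.r0 t807 (Cov.r2 t808 t809)) t810)) t811) t812) t813))) (Cov.r1 t814 (Cov.r2 t815 t816))) (Cov.p0 (Cov.q2 t817 (Cov.q1 (Cov.p1 t818 t819) t820)) t821)) t822)) t823) t824) t825)) (Cov.q1 (Cov.q1 (Cov.q0 (Cov.p0 (Cov.q2 t826 (Cov.q0 (Cov.p1 (Cov.q2 t827 (Cov.q1 (Cov.r0 t828 t829) (Cov.r0 t830 t831))) t832) t833)) (Cov.q2 t834 (Cov.q0 (Cov.p1 (Cov.p0 (Cov.q2 t835 (Cov.q1 t836 (Cov.q1 (Cov.q2 t837 t838) t839))) t840) t841) t842))) t843) t844) t845)) t846) (Cov.q1 (Cov.q1 (Cov.q0 (Cov.p1 (Cov.q1 (Cov.q2 (Cov.q0 (Cov.p0 (Cov.q1 (Cov.r0 (Cov.r1 (Cov.r0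 t847 (Cov.r1 t848 (Cov.r1 t849 (Cov.r0 t850 (Cov.r2 (Cov.r1 t851 (Cov.r2 (Cov.r0 t852 (Cov.r1 t853 (Cov.q2 (Cov.p1 (Cov.r2 t854 t855) t856) t857))) t858)) (Cov.r0 t859 (Cov.r1 t860 (Cov.r2 t861 (Cov.q2 t862 t863))))))))) (Cov.r0 t864 (Cov.r1 (Cov.r0 t865 (Cov.r1 (Cov.r2 (Cov.r1 (Cov.r2 (Cov.r0 t866 (Cov.r1 (Cov.q2 (Cov.p1 t867 t868) t869) t870)) t871) t872) (Cov.r1 (Cov.r0 t873 (Cov.r2 t874 (Cov.r1 (Cov.q2 t875 t876) t877))) t878)) t879)) t880))) (Cov.r1 (Cov.r1 t881 (Cov.r0 (Cov.r1 t882 (Cov.r0 (Cov.r2 (Cov.r1 t883 (Cov.r0 (Cov.r2 (Cov.q2 (Cov.p1 t884 t885) t886) t887) t888)) (Cov.r1 t889 (Cov.r2 t890 t891))) t892)) t893)) (Cov.r1 (Cov.r0 (Cov.r1 (Cov.r0 (Cov.r2 (Cov.r2 (Cov.r1 (Cov.r0 (Cov.r1 (Cov.q2 (Cov.q0 (Cov.q2 t894 (Cov.r2 t895 t896))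 t897) t898) t899) t900) t901) t902) t903) t904) t905) t906) t907))) (Cov.r0 (Cov.r1 t908 t909) t910)) (Cov.p0 (Cov.q1 (Cov.q2 (Cov.r0 (Cov.r1 (Cov.r0 t911 (Cov.r1 t912 (Cov.r0 t913 (Cov.r1 t914 (Cov.r2 t915 t916))))) (Cov.r0 t917 (Cov.r1 (Cov.r1 (Cov.r2 t918 t919) t920) t921))) (Cov.r1 (Cov.r1 t922 (Cov.r0 (Cov.r0 (Cov.r1 t923 (Cov.r2 t924 t925)) t926) t927)) (Cov.r1 (Cov.r0 (Cov.r2 (Cov.r1 (Cov.r1 (Cov.r0 (Cov.r2 (Cov.r0 (Cov.r1 (Cov.r2 t928 t929) t930) t931) t932) t933) t934) t935) t936) t937) t938))) (Cov.r0 t939 t940)) (Cov.r0 t941 t942)) t943)) t944) t945) t946) (Cov.p0 (Cov.q2 (Cov.q1 (Cov.q0 (Cov.r0 (Cov.r1 (Cov.r1 t947 (Cov.r0 t948 (Cov.r1 t949 (Cov.r0 t950 (Cov.r2 (Cov.r1 t951 (Cov.r0 t952 (Cov.r2 (Cov.r2 (Cov.r1 t953 (Cov.r0 t954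 (Cov.p1 (Cov.r1 t955 (Cov.r0 t956 t957)) t958))) t959) t960))) (Cov.r1 t961 (Cov.r0 t962 (Cov.r2 t963 (Cov.r1 t964 (Cov.p1 (Cov.p1 t965 t966) t967)))))))))) (Cov.r0 t968 (Cov.r1 (Cov.r1 (Cov.r0 t969 (Cov.r2 t970 (Cov.r1 (Cov.r0 t971 (Cov.r2 t972 t973)) t974))) t975) t976))) (Cov.r1 (Cov.r1 t977 (Cov.r0 (Cov.r0 (Cov.r1 t978 (Cov.r2 (Cov.r1 t979 (Cov.r2 t980 t981)) t982)) t983) t984)) (Cov.r2 t985 t986))) t987) t988) t989) (Cov.q0 (Cov.q1 (Cov.q2 (Cov.p0 (Cov.p1 (Cov.q1 (Cov.r0 t990 t991) t992) t993) t994) t995) t996) t997))) t998) t999) t1000)) t1001))) t1002) t1003) t1004) t1005)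

end Pool.Agent.Lib.MP_4662c0_co.Low.L
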